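import Mathlib

set_option linter.unusedSectionVars false

open Finset Filter Topology

namespace V11166.Eight

variable {α : Type*} [Fintype α] [DecidableEq α]

/-- A space of functions on `α` such that restriction to any four elements is bijective. -/
structure Uniform4 (W : Submodule ℝ (α → ℝ)) : Prop where
  ext : ∀ Q : Finset α, Q.card = 4 → ∀ v : α → ℝ, ∃ w ∈ W, ∀ q ∈ Q, w q = v q
  uniq : ∀ Q : Finset α, Q.card = 4 → ∀ w ∈ W, (∀ q ∈ Q, w q = 0) → w = 0

lemma exists_small (h k : α → ℝ) : ∃ ε : ℝ, 0 < ε ∧ ∀ p, h p ≠ 0 → ε * |k p| < |h p| := by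
  have key : ∀ p, ∀ᶠ ε : ℝ in 𝓝[>] 0, h p ≠ 0 → ε * |k p| < |h p| := by
    intro p
    by_cases hp : h p = 0
    · simp [hp]
    · have h1 : Tendsto (fun ε : ℝ => ε * |k p|) (𝓝[>] 0) (𝓝 (0 * |k p|)) := by
        apply Tendsto.mono_left _ nhdsWithin_le_nhds
        exact (continuous_id.mul continuous_const).tendsto 0
      rw [zero_mul] at h1
      have h2 := h1.eventually (gt_mem_nhds (abs_pos.mpr hp))
      filter_upwards [h2] with ε hε _
      exact hε
  have h3 := (Filter.eventually_all.mpr key).and self_mem_nhdsWithin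
  obtain ⟨ε, h4, h5⟩ := h3.exists
  exact ⟨ε, h5, h4⟩

lemma perturb {W : Submodule ℝ (α → ℝ)} (hW : Uniform4 W) (hα : 4 ≤ Fintype.card α)
    {h : α → ℝ} (hh : h ∈ W) (h0 : h ≠ 0) (s : α → ℝ) (hs : ∀ p, s p ≠ 0) :
    ∃ f ∈ W, (∀ p, f p ≠ 0) ∧ (∀ p, 0 < h p → 0 < f p) ∧ (∀ p, h p < 0 → f p < 0) ∧
      (∀ p, h p = 0 → 0 < s p → 0 < f p) ∧ (∀ p, h p = 0 → s p < 0 → f p < 0) := by
  classical
  set Z : Finset α := univ.filter (fun p => h p = 0) with hZ
  have hZc : Z.card ≤ 3 := by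
    by_contra hcon
    push Not at hcon
    obtain ⟨Q, hQ, hQc⟩ := Finset.exists_subset_card_eq (n := 4) (s := Z) (by omega)
    apply h0
    apply hW.uniq Q hQc h hh
    intro q hq
    have := hQ hq
    simpa [hZ] using this
  obtain ⟨Q, hZQ, hQc⟩ := Finset.exists_superset_card_eq (s := Z) (n := 4) (by omega)
    (by simpa using hα)
  obtain ⟨k, hk, hkQ⟩ := hW.ext Q hQc s
  obtain ⟨ε, hε, hε2⟩ := exists_small h k
  have hpos : ∀ p, 0 < h p → 0 < (h + ε • k) p := by
    intro p hp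
    have h1 := hε2 p (ne_of_gt hp)
    rw [abs_of_pos hp] at h1
    simp only [Pi.add_apply, Pi.smul_apply, smul_eq_mul]
    have h2 : -(ε * |k p|) ≤ ε * k p := by
      have := neg_abs_le (k p)
      nlinarith
    linarith
  have hneg : ∀ p, h p < 0 → (h + ε • k) p < 0 := by
    intro p hp
    have h1 := hε2 p (ne_of_lt hp)
    rw [abs_of_neg hp] at h1
    simp only [Pi.add_apply, Pi.smul_apply, smul_eq_mul]
    have h2 : ε * k p ≤ ε * |k p| := by
      have := le_abs_self (k p)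
      nlinarith
    linarith
  have hzero : ∀ p, h p = 0 → (h + ε • k) p = ε * s p := by
    intro p hp
    simp only [Pi.add_apply, Pi.smul_apply, smul_eq_mul]
    rw [hp, hkQ p (hZQ (by simp [hZ, hp]))]
    ring
  refine ⟨h + ε • k, W.add_mem hh (W.smul_mem ε hk), ?_, hpos, hneg, ?_, ?_⟩
  · intro p
    rcases lt_trichotomy (h p) 0 with h1 | h1 | h1
    · exact ne_of_lt (hneg p h1)
    · rw [hzero p h1]
      exact mul_ne_zero (ne_of_gt hε) (hs p)
    · exact ne_of_gt (hpos p h1)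
  · intro p hp hsp
    rw [hzero p hp]
    exact mul_pos hε hsp
  · intro p hp hsp
    rw [hzero p hp]
    exact mul_neg_of_pos_of_neg hε hsp

/-- number of positive values along `b` -/
noncomputable def N (b : Fin 4 → α) (w : α → ℝ) : ℕ :=
  by classical exact (univ.filter (fun j : Fin 4 => 0 < w (b j))).card

/-- pairs of distinct indices -/
def prs : Finset (Fin 4 × Fin 4) := univ.filter (fun p => p.1 ≠ p.2)

lemma prs_nonempty : prs.Nonempty := ⟨(0, 1), by decide⟩

/-- second largest value -/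
noncomputable def phi (x : Fin 4 → ℝ) : ℝ := prs.sup' prs_nonempty (fun p => min (x p.1) (x p.2))

lemma halve {W : Submodule ℝ (α → ℝ)} (hW : Uniform4 W) (hα : 4 ≤ Fintype.card α)
    (a b : Fin 4 → α) (hb : Function.Injective b)
    {f g : α → ℝ} (hf : f ∈ W) (hg : g ∈ W) (hf0 : ∀ p, f p ≠ 0) (_hg0 : ∀ p, g p ≠ 0)
    (hfg : ∀ i, 0 < g (a i) * f (a i)) (h1 : N b f ≤ 2) (h2 : 2 ≤ N b g) :
    ∃ w ∈ W, (∀ p, w p ≠ 0) ∧ (∀ i, 0 < w (a i) * f (a i)) ∧ N b w = 2 := by
  classical
  have hff : ∀ p, 0 < f p * f p := fun p => mul_self_pos.mpr (hf0 p)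
  rcases eq_or_lt_of_le h1 with h1 | h1
  · exact ⟨f, hf, hf0, fun i => hff _, h1⟩
  -- now `N b f ≤ 1`
  let x : ℝ → Fin 4 → ℝ := fun t j => (1 - t) * f (b j) + t * g (b j)
  have hcont : Continuous (fun t => phi (x t)) := by
    unfold phi
    apply Continuous.finset_sup'_apply
    intro p _
    exact ((by fun_prop : Continuous (fun t : ℝ => (1 - t) * f (b p.1) + t * g (b p.1)))).min
      ((by fun_prop : Continuous (fun t : ℝ => (1 - t) * f (b p.2) + t * g (b p.2))))
  have hphi0 : phi (x 0) < 0 := by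
    unfold phi
    rw [Finset.sup'_lt_iff]
    intro p hp
    by_contra hcon
    push Not at hcon
    have h3 : 0 ≤ f (b p.1) := by
      have := le_trans hcon (min_le_left _ _)
      simpa [x] using this
    have h4 : 0 ≤ f (b p.2) := by
      have := le_trans hcon (min_le_right _ _)
      simpa [x] using this
    have h3' : 0 < f (b p.1) := lt_of_le_of_ne h3 (Ne.symm (hf0 _))
    have h4' : 0 < f (b p.2) := lt_of_le_of_ne h4 (Ne.symm (hf0 _))
    have h5 : 1 < (univ.filter (fun j : Fin 4 => 0 < f (b j))).card := by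
      rw [Finset.one_lt_card]
      refine ⟨p.1, by simp [h3'], p.2, by simp [h4'], ?_⟩
      simpa [prs] using hp
    unfold N at h1
    omega
  have hphi1 : 0 < phi (x 1) := by
    unfold phi
    rw [Finset.lt_sup'_iff]
    have h5 : 1 < (univ.filter (fun j : Fin 4 => 0 < g (b j))).card := by
      unfold N at h2
      omega
    rw [Finset.one_lt_card] at h5
    obtain ⟨i, hi, j, hj, hij⟩ := h5
    refine ⟨(i, j), by simpa [prs] using hij, ?_⟩
    simp only [Finset.mem_filter, Finset.mem_univ, true_and] at hi hj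
    simpa [x] using ⟨hi, hj⟩
  obtain ⟨t, ht, htphi⟩ := intermediate_value_Icc (zero_le_one' ℝ) hcont.continuousOn
    (show (0 : ℝ) ∈ Set.Icc (phi (x 0)) (phi (x 1)) from ⟨hphi0.le, hphi1.le⟩)
  have htphi : phi (x t) = 0 := htphi
  set h : α → ℝ := (1 - t) • f + t • g with hh
  have hhW : h ∈ W := W.add_mem (W.smul_mem _ hf) (W.smul_mem _ hg)
  have hhx : ∀ j, h (b j) = x t j := by
    intro j
    simp [hh, x]
  have hha : ∀ i, 0 < h (a i) * f (a i) := by
    intro i
    have e : h (a i) * f (a i) = (1 - t) * (f (a i) * f (a i)) + t * (g (a i) * f (a i)) := by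
      simp [hh]; ring
    rw [e]
    have h3 := hff (a i)
    have h4 := hfg i
    rcases eq_or_lt_of_le ht.1 with h5 | h5
    · rw [← h5]; simpa using h3
    · have : 0 ≤ (1 - t) * (f (a i) * f (a i)) := mul_nonneg (by linarith [ht.2]) h3.le
      have : 0 < t * (g (a i) * f (a i)) := mul_pos h5 h4
      linarith
  have hh0 : h ≠ 0 := by
    intro h3
    have := hha 0
    rw [h3] at this
    simp at this
  have hpairs : ∀ i j : Fin 4, i ≠ j → min (x t i) (x t j) ≤ 0 := by
    intro i j hij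
    rw [← htphi]
    unfold phi
    exact Finset.le_sup' (fun p : Fin 4 × Fin 4 => min (x t p.1) (x t p.2))
      (show (i, j) ∈ prs by simpa [prs] using hij)
  obtain ⟨⟨i0, j0⟩, hij0, hmin0⟩ := Finset.exists_mem_eq_sup' prs_nonempty
    (fun p : Fin 4 × Fin 4 => min (x t p.1) (x t p.2))
  have hmin0 : min (x t i0) (x t j0) = 0 := by
    rw [← htphi]
    exact hmin0.symm
  have hij0 : i0 ≠ j0 := by simpa [prs] using hij0
  set Pos : Finset (Fin 4) := univ.filter (fun j => 0 < x t j) with hPos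
  set NN : Finset (Fin 4) := univ.filter (fun j => 0 ≤ x t j) with hNN
  have hPN : Pos ⊆ NN := by
    intro j hj
    simp only [hPos, hNN, Finset.mem_filter, Finset.mem_univ, true_and] at hj ⊢
    exact hj.le
  have hPosc : Pos.card ≤ 2 := by
    by_contra hcon
    have h5 : 1 < Pos.card := by omega
    rw [Finset.one_lt_card] at h5
    obtain ⟨i, hi, j, hj, hij⟩ := h5
    simp only [hPos, Finset.mem_filter, Finset.mem_univ, true_and] at hi hj
    have := hpairs i j hij
    have h6 : 0 < min (x t i) (x t j) := lt_min hi hj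
    linarith
  have hNNc : 2 ≤ NN.card := by
    have h5 : 1 < NN.card := by
      rw [Finset.one_lt_card]
      refine ⟨i0, ?_, j0, ?_, hij0⟩
      · simp only [hNN, Finset.mem_filter, Finset.mem_univ, true_and]
        rw [← hmin0]; exact min_le_left _ _
      · simp only [hNN, Finset.mem_filter, Finset.mem_univ, true_and]
        rw [← hmin0]; exact min_le_right _ _
    omega
  obtain ⟨S, hPS, hSN, hSc⟩ := Finset.exists_subsuperset_card_eq hPN hPosc hNNc
  obtain ⟨w, hw, hw0, hwp, hwn, hwzp, hwzn⟩ := perturb hW hα hhW hh0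
    (fun p => if ∃ j ∈ S, b j = p then (1 : ℝ) else -1)
    (by intro p; split_ifs <;> norm_num)
  refine ⟨w, hw, hw0, ?_, ?_⟩
  · intro i
    have h3 := hha i
    rcases lt_trichotomy (h (a i)) 0 with h4 | h4 | h4
    · have h5 : f (a i) < 0 := by
        by_contra hcon
        push Not at hcon
        nlinarith
      exact mul_pos_of_neg_of_neg (hwn _ h4) h5
    · rw [h4] at h3; simp at h3
    · have h5 : 0 < f (a i) := by
        by_contra hcon
        push Not at hcon
        nlinarith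
      exact mul_pos (hwp _ h4) h5
  · have hS : (univ.filter (fun j : Fin 4 => 0 < w (b j))) = S := by
      ext j
      simp only [Finset.mem_filter, Finset.mem_univ, true_and]
      constructor
      · intro h3
        by_contra hjS
        rcases lt_trichotomy (h (b j)) 0 with h4 | h4 | h4
        · linarith [hwn _ h4]
        · have h5 := hwzn (b j) h4 (by
            rw [if_neg]
            · norm_num
            · rintro ⟨j', hj', e⟩
              exact hjS (hb e ▸ hj'))
          linarith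
        · apply hjS
          apply hPS
          simp only [hPos, Finset.mem_filter, Finset.mem_univ, true_and]
          rw [← hhx]; exact h4
      · intro hjS
        have h3 : 0 ≤ h (b j) := by
          have := hSN hjS
          simp only [hNN, Finset.mem_filter, Finset.mem_univ, true_and] at this
          rw [hhx]; exact this
        rcases eq_or_lt_of_le h3 with h4 | h4
        · exact hwzp (b j) h4.symm (by rw [if_pos ⟨j, hjS, rfl⟩]; norm_num)
        · exact hwp _ h4
    unfold N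
    rw [hS, hSc]

lemma N_neg (b : Fin 4 → α) {w : α → ℝ} (hw : ∀ p, w p ≠ 0) : N b (-w) = 4 - N b w := by
  classical
  unfold N
  have h1 : (univ.filter (fun j : Fin 4 => 0 < (-w) (b j))) =
      (univ.filter (fun j : Fin 4 => 0 < w (b j)))ᶜ := by
    ext j
    simp only [Finset.mem_filter, Finset.mem_univ, true_and, Finset.mem_compl, Pi.neg_apply]
    constructor
    · intro h2 h3; linarith
    · intro h2
      have := hw (b j)
      push Not at h2
      have := lt_of_le_of_ne h2 this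
      linarith
  rw [h1, Finset.card_compl]
  simp

lemma N_congr (b : Fin 4 → α) {w h : α → ℝ} (hw1 : ∀ p, 0 < h p → 0 < w p)
    (hw2 : ∀ p, h p < 0 → w p < 0) (hw3 : ∀ j, h (b j) = 0 → w (b j) < 0) : N b w = N b h := by
  classical
  unfold N
  congr 1
  ext j
  simp only [Finset.mem_filter, Finset.mem_univ, true_and]
  constructor
  · intro h1
    by_contra h2
    push Not at h2
    rcases eq_or_lt_of_le h2 with h3 | h3
    · linarith [hw3 j h3]
    · linarith [hw2 _ h3]
  · exact hw1 _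

lemma separate_pairs {W : Submodule ℝ (α → ℝ)} (hW : Uniform4 W) (hα : 4 ≤ Fintype.card α)
    (a b : Fin 4 → α) (ha : Function.Injective a) (hb : Function.Injective b)
    (hab : ∀ i j, a i ≠ b j) :
    ∃ w ∈ W, (∀ p, w p ≠ 0) ∧ w (a 0) * w (a 1) < 0 ∧ w (a 2) * w (a 3) < 0 ∧ N b w = 2 := by
  classical
  have hQc : (univ.image a).card = 4 := by
    rw [Finset.card_image_of_injective _ ha]; simp
  have hQm : ∀ i, a i ∈ univ.image a := fun i => Finset.mem_image_of_mem _ (Finset.mem_univ _)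
  have ha' : ∀ i j, a i = a j ↔ i = j := fun i j => ha.eq_iff
  have hab' : ∀ i j, b j ≠ a i := fun i j => (hab i j).symm
  obtain ⟨h₁, hh₁, hv₁⟩ := hW.ext _ hQc (fun p => if p = a 0 then 1 else if p = a 1 then -1 else 0)
  obtain ⟨h₂, hh₂, hv₂⟩ := hW.ext _ hQc (fun p => if p = a 2 then 1 else if p = a 3 then -1 else 0)
  have e10 : h₁ (a 0) = 1 := by rw [hv₁ _ (hQm 0)]; simp
  have e11 : h₁ (a 1) = -1 := by rw [hv₁ _ (hQm 1)]; simp [ha']
  have e12 : h₁ (a 2) = 0 := by rw [hv₁ _ (hQm 2)]; simp [ha']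
  have e13 : h₁ (a 3) = 0 := by rw [hv₁ _ (hQm 3)]; simp [ha']
  have e20 : h₂ (a 0) = 0 := by rw [hv₂ _ (hQm 0)]; simp [ha']
  have e21 : h₂ (a 1) = 0 := by rw [hv₂ _ (hQm 1)]; simp [ha']
  have e22 : h₂ (a 2) = 1 := by rw [hv₂ _ (hQm 2)]; simp
  have e23 : h₂ (a 3) = -1 := by rw [hv₂ _ (hQm 3)]; simp [ha']
  have n1 : h₁ ≠ 0 := by intro h; rw [h] at e10; simp at e10
  have n2 : h₂ ≠ 0 := by intro h; rw [h] at e22; simp at e22
  -- the four perturbations
  obtain ⟨f, hf, f0, fp, fn, fzp, fzn⟩ := perturb hW hα hh₁ n1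
    (fun p => if p = a 2 then 1 else -1) (by intro p; split_ifs <;> norm_num)
  obtain ⟨f', hf', f'0, f'p, f'n, f'zp, f'zn⟩ := perturb hW hα hh₁ n1
    (fun p => if p = a 3 then 1 else -1) (by intro p; split_ifs <;> norm_num)
  obtain ⟨g, hg, g0, gp, gn, gzp, gzn⟩ := perturb hW hα hh₂ n2
    (fun p => if p = a 0 then 1 else -1) (by intro p; split_ifs <;> norm_num)
  obtain ⟨g', hg', g'0, g'p, g'n, g'zp, g'zn⟩ := perturb hW hα hh₂ n2
    (fun p => if p = a 1 then 1 else -1) (by intro p; split_ifs <;> norm_num)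
  have Nf : N b f = N b h₁ := N_congr b fp fn (fun j hj => fzn _ hj (by simp [hab']))
  have Nf' : N b f' = N b h₁ := N_congr b f'p f'n (fun j hj => f'zn _ hj (by simp [hab']))
  have Ng : N b g = N b h₂ := N_congr b gp gn (fun j hj => gzn _ hj (by simp [hab']))
  have Ng' : N b g' = N b h₂ := N_congr b g'p g'n (fun j hj => g'zn _ hj (by simp [hab']))
  have sf0 : 0 < f (a 0) := fp _ (by rw [e10]; norm_num)
  have sf1 : f (a 1) < 0 := fn _ (by rw [e11]; norm_num)
  have sf2 : 0 < f (a 2) := fzp _ e12 (by simp)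
  have sf3 : f (a 3) < 0 := fzn _ e13 (by simp [ha'])
  have sf'0 : 0 < f' (a 0) := f'p _ (by rw [e10]; norm_num)
  have sf'1 : f' (a 1) < 0 := f'n _ (by rw [e11]; norm_num)
  have sf'2 : f' (a 2) < 0 := f'zn _ e12 (by simp [ha'])
  have sf'3 : 0 < f' (a 3) := f'zp _ e13 (by simp)
  have sg0 : 0 < g (a 0) := gzp _ e20 (by simp)
  have sg1 : g (a 1) < 0 := gzn _ e21 (by simp [ha'])
  have sg2 : 0 < g (a 2) := gp _ (by rw [e22]; norm_num)
  have sg3 : g (a 3) < 0 := gn _ (by rw [e23]; norm_num)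
  have sg'0 : g' (a 0) < 0 := g'zn _ e20 (by simp [ha'])
  have sg'1 : 0 < g' (a 1) := g'zp _ e21 (by simp)
  have sg'2 : 0 < g' (a 2) := g'p _ (by rw [e22]; norm_num)
  have sg'3 : g' (a 3) < 0 := g'n _ (by rw [e23]; norm_num)
  have Nk : N b (-g') = 4 - N b h₂ := by rw [N_neg b g'0, Ng']
  have k0 : ∀ p, (-g') p ≠ 0 := by intro p; simpa using g'0 p
  have hk : -g' ∈ W := W.neg_mem hg'
  -- compatibility of signs on `a`
  have c1 : ∀ i, 0 < g (a i) * f (a i) := by
    intro i
    fin_cases i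
    · exact mul_pos sg0 sf0
    · exact mul_pos_of_neg_of_neg sg1 sf1
    · exact mul_pos sg2 sf2
    · exact mul_pos_of_neg_of_neg sg3 sf3
  have c1' : ∀ i, 0 < f (a i) * g (a i) := fun i => by rw [mul_comm]; exact c1 i
  have c2 : ∀ i, 0 < (-g') (a i) * f' (a i) := by
    intro i
    simp only [Pi.neg_apply]
    fin_cases i
    · exact mul_pos (by simpa using sg'0) sf'0
    · exact mul_pos_of_neg_of_neg (by simpa using sg'1) sf'1
    · exact mul_pos_of_neg_of_neg (by simpa using sg'2) sf'2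
    · exact mul_pos (by simpa using sg'3) sf'3
  have c2' : ∀ i, 0 < f' (a i) * (-g') (a i) := fun i => by rw [mul_comm]; exact c2 i
  -- final step: from a witness with the signs of `f` or `g`, or of `f'` or `-g'`
  have fin1 : ∀ (u v w : α → ℝ), u (a 0) * u (a 1) < 0 → u (a 2) * u (a 3) < 0 →
      (∀ i, 0 < w (a i) * u (a i)) → w (a 0) * w (a 1) < 0 ∧ w (a 2) * w (a 3) < 0 := by
    intro u v w hu1 hu2 hwu
    have aux : ∀ i j, u (a i) * u (a j) < 0 → w (a i) * w (a j) < 0 := by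
      intro i j huv
      have h1 := mul_pos (hwu i) (hwu j)
      by_contra hcon
      push Not at hcon
      have : (w (a i) * w (a j)) * (u (a i) * u (a j)) ≤ 0 :=
        mul_nonpos_of_nonneg_of_nonpos hcon huv.le
      nlinarith
    exact ⟨aux _ _ hu1, aux _ _ hu2⟩
  rcases le_or_gt (N b h₁) 2 with hn | hn
  · rcases le_or_gt 2 (N b h₂) with hm | hm
    · obtain ⟨w, hw, hw0, hwa, hwN⟩ := halve hW hα a b hb hf hg f0 g0 c1 (by omega) (by omega)
      obtain ⟨r1, r2⟩ := fin1 f f w (mul_neg_of_pos_of_neg sf0 sf1)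
        (mul_neg_of_pos_of_neg sf2 sf3) hwa
      exact ⟨w, hw, hw0, r1, r2, hwN⟩
    · obtain ⟨w, hw, hw0, hwa, hwN⟩ := halve hW hα a b hb hf' hk f'0 k0 c2 (by omega) (by omega)
      obtain ⟨r1, r2⟩ := fin1 f' f' w (mul_neg_of_pos_of_neg sf'0 sf'1)
        (mul_neg_of_neg_of_pos sf'2 sf'3) hwa
      exact ⟨w, hw, hw0, r1, r2, hwN⟩
  · rcases le_or_gt (N b h₂) 2 with hm | hm
    · obtain ⟨w, hw, hw0, hwa, hwN⟩ := halve hW hα a b hb hg hf g0 f0 c1' (by omega) (by omega)
      obtain ⟨r1, r2⟩ := fin1 g g w (mul_neg_of_pos_of_neg sg0 sg1)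
        (mul_neg_of_pos_of_neg sg2 sg3) hwa
      exact ⟨w, hw, hw0, r1, r2, hwN⟩
    · obtain ⟨w, hw, hw0, hwa, hwN⟩ := halve hW hα a b hb hk hf' k0 f'0 c2' (by omega) (by omega)
      obtain ⟨r1, r2⟩ := fin1 (-g') f' w
        (by simp only [Pi.neg_apply]; nlinarith [mul_neg_of_neg_of_pos sg'0 sg'1])
        (by simp only [Pi.neg_apply]; nlinarith [mul_neg_of_pos_of_neg sg'2 sg'3]) hwa
      exact ⟨w, hw, hw0, r1, r2, hwN⟩

/-- sign pattern along `a` -/
noncomputable def pat (a : Fin 4 → α) (w : α → ℝ) : Fin 4 → Bool := fun i => decide (0 < w (a i))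

/-- exactly two `true` entries -/
def bal (u : Fin 4 → Bool) : Bool := decide ((univ.filter (fun j => u j = true)).card = 2)

/-- normalised pattern -/
def nrm (u : Fin 4 → Bool) : Fin 4 → Bool := fun i => xor (u i) (u 0)

lemma N_pat (b : Fin 4 → α) (w : α → ℝ) : N b w = (univ.filter (fun j => pat b w j = true)).card := by
  classical
  unfold N pat
  congr 1
  ext j
  simp

lemma pat_ne (a : Fin 4 → α) {w : α → ℝ} {i j : Fin 4} (h : w (a i) * w (a j) < 0) :
    pat a w i ≠ pat a w j := by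
  unfold pat
  rcases mul_neg_iff.mp h with ⟨h1, h2⟩ | ⟨h1, h2⟩
  · have h3 : ¬ (0 < w (a j)) := by linarith
    simp [h1, h3]
  · have h3 : ¬ (0 < w (a i)) := by linarith
    simp [h2, h3]

lemma bool1 : ∀ u : Fin 4 → Bool, u 0 ≠ u 1 → u 2 ≠ u 3 → bal u = true := by decide

lemma bool2 : ∀ u : Fin 4 → Bool, u 0 ≠ u 2 → u 1 ≠ u 3 → bal u = true := by decide

lemma bool3 : ∀ u : Fin 4 → Bool, u 0 ≠ u 3 → u 2 ≠ u 1 → bal u = true := by decide

lemma bool4 : ∀ u v : Fin 4 → Bool, bal u = true → bal v = true → nrm u ≠ nrm v →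
    ∀ i j, u i = u j → v i = v j → i = j := by decide

lemma bool5 : ∀ u : Fin 4 → Bool, bal u = true → ∃ j, j ≠ 0 ∧ nrm u j = false := by decide

lemma not_type {W : Submodule ℝ (α → ℝ)} (hW : Uniform4 W) (hα : 4 ≤ Fintype.card α)
    (a b : Fin 4 → α) (ha : Function.Injective a) (hb : Function.Injective b)
    (hab : ∀ i j, a i ≠ b j) (k : Fin 4) (hk : k ≠ 0) :
    ∃ w ∈ W, (∀ p, w p ≠ 0) ∧ bal (pat a w) = true ∧ bal (pat b w) = true ∧
      nrm (pat a w) k = true := by
  have main : ∀ k : Fin 4, k = 1 ∨ k = 2 ∨ k = 3 → ∃ w ∈ W, (∀ p, w p ≠ 0) ∧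
      bal (pat a w) = true ∧ bal (pat b w) = true ∧ nrm (pat a w) k = true := by
    intro k hk
    have hxor : ∀ x y : Bool, y ≠ x → xor x y = true := by decide
    rcases hk with rfl | rfl | rfl
    · obtain ⟨w, hw, hw0, h1, h2, h3⟩ := separate_pairs hW hα a b ha hb hab
      have p1 := pat_ne a h1
      have p2 := pat_ne a h2
      refine ⟨w, hw, hw0, bool1 _ p1 p2, ?_, hxor _ _ p1⟩
      rw [N_pat] at h3
      simpa [bal] using h3
    · let π : Fin 4 → Fin 4 := ![0, 2, 1, 3]
      have hπ : Function.Injective π := by decide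
      obtain ⟨w, hw, hw0, h1, h2, h3⟩ := separate_pairs hW hα (a ∘ π) b (ha.comp hπ) hb
        (fun i j => hab _ _)
      have h1' : w (a 0) * w (a 2) < 0 := h1
      have h2' : w (a 1) * w (a 3) < 0 := h2
      have p1 := pat_ne a h1'
      have p2 := pat_ne a h2'
      refine ⟨w, hw, hw0, bool2 _ p1 p2, ?_, hxor _ _ p1⟩
      rw [N_pat] at h3
      simpa [bal] using h3
    · let π : Fin 4 → Fin 4 := ![0, 3, 2, 1]
      have hπ : Function.Injective π := by decide
      obtain ⟨w, hw, hw0, h1, h2, h3⟩ := separate_pairs hW hα (a ∘ π) b (ha.comp hπ) hb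
        (fun i j => hab _ _)
      have h1' : w (a 0) * w (a 3) < 0 := h1
      have h2' : w (a 2) * w (a 1) < 0 := h2
      have p1 := pat_ne a h1'
      have p2 := pat_ne a h2'
      refine ⟨w, hw, hw0, bool3 _ p1 p2, ?_, hxor _ _ p1⟩
      rw [N_pat] at h3
      simpa [bal] using h3
  apply main
  revert k
  decide

/-- Two members of `W` whose sign patterns distinguish the elements of `a` and those of `b`. -/
theorem two_split {W : Submodule ℝ (α → ℝ)} (hW : Uniform4 W) (hα : 4 ≤ Fintype.card α)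
    (a b : Fin 4 → α) (ha : Function.Injective a) (hb : Function.Injective b)
    (hab : ∀ i j, a i ≠ b j) :
    ∃ f ∈ W, ∃ g ∈ W, (∀ p, f p ≠ 0) ∧ (∀ p, g p ≠ 0) ∧
      (∀ i j, pat a f i = pat a f j → pat a g i = pat a g j → i = j) ∧
      (∀ i j, pat b f i = pat b f j → pat b g i = pat b g j → i = j) := by
  have hab' : ∀ i j, b i ≠ a j := fun i j => (hab j i).symm
  obtain ⟨w₀, hw₀, z₀, ba₀, bb₀, -⟩ := not_type hW hα a b ha hb hab 1 (by decide)
  obtain ⟨j, hj, hja⟩ := bool5 _ ba₀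
  obtain ⟨w₁, hw₁, z₁, ba₁, bb₁, t₁⟩ := not_type hW hα a b ha hb hab j hj
  have d₁ : nrm (pat a w₀) ≠ nrm (pat a w₁) := by
    intro h
    have := congrFun h j
    rw [hja, t₁] at this
    exact absurd this (by decide)
  by_cases hB : nrm (pat b w₀) = nrm (pat b w₁)
  · obtain ⟨k, hk, hkb⟩ := bool5 _ bb₀
    obtain ⟨w₂, hw₂, z₂, bb₂, ba₂, t₂⟩ := not_type hW hα b a hb ha hab' k hk
    have d₂ : nrm (pat b w₀) ≠ nrm (pat b w₂) := by
      intro h
      have := congrFun h k
      rw [hkb, t₂] at this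
      exact absurd this (by decide)
    by_cases hA : nrm (pat a w₀) = nrm (pat a w₂)
    · refine ⟨w₁, hw₁, w₂, hw₂, z₁, z₂, ?_, ?_⟩
      · exact bool4 _ _ ba₁ ba₂ (by rw [← hA]; exact d₁.symm)
      · exact bool4 _ _ bb₁ bb₂ (by rw [← hB]; exact d₂)
    · exact ⟨w₀, hw₀, w₂, hw₂, z₀, z₂, bool4 _ _ ba₀ ba₂ hA, bool4 _ _ bb₀ bb₂ d₂⟩
  · exact ⟨w₀, hw₀, w₁, hw₁, z₀, z₁, bool4 _ _ ba₀ ba₁ d₁, bool4 _ _ bb₀ bb₁ hB⟩

end V11166.Eight
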